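import Mathlib

namespace Pool.Agent.H.MP_16c542_al

abbrev E : Type := Fin 8 → ℚ

/- coordinates: 0 = a, 1 = b, 2 = c1, 3 = d1, 4 = x1, 5 = c2, 6 = d2, 7 = x2 -/
def Z (u : E) : Prop := u 0 = 0 ∧ u 1 = 0 ∧ u 2 = 0 ∧ u 3 = 0 ∧ u 4 = 0 ∧ u 5 = 0 ∧ u 6 = 0 ∧ u 7 = 0
def U1 (u : E) : Prop := u 5 = 0 ∧ u 6 = 0 ∧ u 7 = 0
def U2 (u : E) : Prop := u 2 = 0 ∧ u 3 = 0 ∧ u 4 = 0
def X1 (u : E) : Prop := U1 u ∧ u 0 = 0 ∧ u 1 = 0 ∧ u 2 = 0 ∧ u 3 = 0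
def X2 (u : E) : Prop := U2 u ∧ u 0 = 0 ∧ u 1 = 0 ∧ u 5 = 0 ∧ u 6 = 0
def XX (u : E) : Prop := u 0 = 0 ∧ u 1 = 0 ∧ u 2 = 0 ∧ u 3 = 0 ∧ u 5 = 0 ∧ u 6 = 0
def L1 (l : ℚ) (u : E) : Prop := U1 u ∧ u 1 = 0 ∧ u 3 = 0 ∧ u 2 = l * u 0
def M1 (l : ℚ) (u : E) : Prop := U1 u ∧ u 0 = 0 ∧ u 2 = 0 ∧ u 3 = l * u 1
def L2 (l : ℚ) (u : E) : Prop := U2 u ∧ u 1 = 0 ∧ u 6 = 0 ∧ u 5 = l * u 0
def M2 (l : ℚ) (u : E) : Prop := U2 u ∧ u 0 = 0 ∧ u 5 = 0 ∧ u 6 = l * u 1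
def Pr (l m : ℚ) : Prop := (l = 1 ∧ m = 1) ∨ (l = -1 ∧ m = -1) ∨ (l = 2 ∧ m = -2) ∨ (l = -2 ∧ m = 2)

def R0 (u v : E) : Prop := Z u ∨ (X1 u ∧ U1 v) ∨ (X2 u ∧ U2 v) ∨ (U1 u ∧ U2 u ∧ XX v) ∨
  (∃ l m, Pr l m ∧ L1 l u ∧ M1 m v) ∨ (∃ l m, Pr l m ∧ L2 l u ∧ M2 m v)

def R (u v : E) : Prop := R0 u v ∨ R0 v u

theorem R_symm {u v : E} (h : R u v) : R v u := Or.symm h

theorem Pr_ne {l m : ℚ} (h : Pr l m) : l ≠ 0 ∧ m ≠ 0 := by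
  rcases h with ⟨rfl, rfl⟩ | ⟨rfl, rfl⟩ | ⟨rfl, rfl⟩ | ⟨rfl, rfl⟩ <;> norm_num
theorem Pr_iff {l m l' m' : ℚ} (h : Pr l m) (h' : Pr l' m') : l = l' ↔ m = m' := by
  rcases h with ⟨rfl, rfl⟩ | ⟨rfl, rfl⟩ | ⟨rfl, rfl⟩ | ⟨rfl, rfl⟩ <;>
  rcases h' with ⟨rfl, rfl⟩ | ⟨rfl, rfl⟩ | ⟨rfl, rfl⟩ | ⟨rfl, rfl⟩ <;> norm_num

theorem polar (u : E) : (∀ v, R u v) ∨ (∀ v, R u v ↔ U1 v) ∨ (∀ v, R u v ↔ U2 v) ∨
    (∀ v, R u v ↔ XX v) ∨ (∀ v, R u v ↔ U1 v ∧ U2 v) ∨ (∃ m, ∀ v, R u v ↔ M1 m v) ∨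
    (∃ m, ∀ v, R u v ↔ L1 m v) ∨ (∃ m, ∀ v, R u v ↔ M2 m v) ∨ (∃ m, ∀ v, R u v ↔ L2 m v) ∨
    (∀ v, R u v ↔ X1 v) ∨ (∀ v, R u v ↔ X2 v) ∨ (∀ v, R u v ↔ Z v) := by
  have key : ∀ (P : E → Prop), (∀ v, P v → R u v) → (∀ v, Z u → P v) → (∀ v, Z v → P v) →
      (∀ v, X1 u → U1 v → P v) → (∀ v, X2 u → U2 v → P v) → (∀ v, U1 u → U2 u → XX v → P v) →
      (∀ v, X1 v → U1 u → P v) → (∀ v, X2 v → U2 u → P v) → (∀ v, U1 v → U2 v → XX u → P v) →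
      (∀ v l m, Pr l m → L1 l u → M1 m v → P v) → (∀ v l m, Pr l m → L2 l u → M2 m v → P v) →
      (∀ v l m, Pr l m → L1 l v → M1 m u → P v) → (∀ v l m, Pr l m → L2 l v → M2 m u → P v) →
      ∀ v, R u v ↔ P v := by
    intro P h0 h1 h2 h3 h4 h5 h6 h7 h8 h9 h10 h11 h12 v
    refine ⟨?_, h0 v⟩
    rintro ((h | h | h | h | ⟨l, m, h⟩ | ⟨l, m, h⟩) | (h | h | h | h | ⟨l, m, h⟩ | ⟨l, m, h⟩))
    exacts [h1 v h, h3 v h.1 h.2, h4 v h.1 h.2, h5 v h.1 h.2.1 h.2.2, h9 v l m h.1 h.2.1 h.2.2,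
      h10 v l m h.1 h.2.1 h.2.2, h2 v h, h6 v h.1 h.2, h7 v h.1 h.2, h8 v h.1 h.2.1 h.2.2,
      h11 v l m h.1 h.2.1 h.2.2, h12 v l m h.1 h.2.1 h.2.2]
  by_cases c0 : Z u
  · exact Or.inl (fun v => Or.inl (Or.inl c0))
  right
  by_cases c1 : X1 u
  · left
    apply key _ (fun v h => Or.inl (Or.inr (Or.inl ⟨c1, h⟩))) <;>
      grind [Z, U1, U2, X1, X2, XX, L1, L2, M1, M2, → Pr_ne]
  right
  by_cases c2 : X2 u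
  · left
    apply key _ (fun v h => Or.inl (Or.inr (Or.inr (Or.inl ⟨c2, h⟩)))) <;>
      grind [Z, U1, U2, X1, X2, XX, L1, L2, M1, M2, → Pr_ne]
  right
  by_cases c3 : U1 u ∧ U2 u
  · left
    apply key _ (fun v h => Or.inl (Or.inr (Or.inr (Or.inr (Or.inl ⟨c3.1, c3.2, h⟩))))) <;>
      grind [Z, U1, U2, X1, X2, XX, L1, L2, M1, M2, → Pr_ne]
  right
  by_cases c4 : XX u
  · left
    apply key _ (fun v h => Or.inr (Or.inr (Or.inr (Or.inr (Or.inl ⟨h.1, h.2, c4⟩))))) <;>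
      grind [Z, U1, U2, X1, X2, XX, L1, L2, M1, M2, → Pr_ne]
  right
  by_cases c5 : ∃ l m, Pr l m ∧ L1 l u
  · obtain ⟨l, m, p, c5⟩ := c5
    refine Or.inl ⟨m, ?_⟩
    apply key _ (fun v h => Or.inl (Or.inr (Or.inr (Or.inr (Or.inr (Or.inl ⟨l, m, p, c5, h⟩)))))) <;>
      grind [Z, U1, U2, X1, X2, XX, L1, L2, M1, M2, → Pr_ne, → Pr_iff]
  right
  by_cases c6 : ∃ l m, Pr l m ∧ M1 m u
  · obtain ⟨l, m, p, c6⟩ := c6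
    refine Or.inl ⟨l, ?_⟩
    apply key _ (fun v h => Or.inr (Or.inr (Or.inr (Or.inr (Or.inr (Or.inl ⟨l, m, p, h, c6⟩)))))) <;>
      grind [Z, U1, U2, X1, X2, XX, L1, L2, M1, M2, → Pr_ne, → Pr_iff]
  right
  by_cases c7 : ∃ l m, Pr l m ∧ L2 l u
  · obtain ⟨l, m, p, c7⟩ := c7
    refine Or.inl ⟨m, ?_⟩
    apply key _ (fun v h => Or.inl (Or.inr (Or.inr (Or.inr (Or.inr (Or.inr ⟨l, m, p, c7, h⟩)))))) <;>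
      grind [Z, U1, U2, X1, X2, XX, L1, L2, M1, M2, → Pr_ne, → Pr_iff]
  right
  by_cases c8 : ∃ l m, Pr l m ∧ M2 m u
  · obtain ⟨l, m, p, c8⟩ := c8
    refine Or.inl ⟨l, ?_⟩
    apply key _ (fun v h => Or.inr (Or.inr (Or.inr (Or.inr (Or.inr (Or.inr ⟨l, m, p, h, c8⟩)))))) <;>
      grind [Z, U1, U2, X1, X2, XX, L1, L2, M1, M2, → Pr_ne, → Pr_iff]
  right
  by_cases c9 : U1 u
  · left
    apply key _ (fun v h => Or.inr (Or.inr (Or.inl ⟨h, c9⟩))) <;>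
      grind [Z, U1, U2, X1, X2, XX]
  right
  by_cases c10 : U2 u
  · left
    apply key _ (fun v h => Or.inr (Or.inr (Or.inr (Or.inl ⟨h, c10⟩)))) <;>
      grind [Z, U1, U2, X1, X2, XX]
  right
  apply key _ (fun v h => Or.inr (Or.inl h)) <;>
    grind [Z, U1, U2, X1, X2, XX]

theorem R_add {u v w : E} (h1 : R u v) (h2 : R u w) : R u (v + w) := by
  rcases polar u with h | h | h | h | h | ⟨m, h⟩ | ⟨m, h⟩ | ⟨m, h⟩ | ⟨m, h⟩ | h | h | h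
  · exact h _
  all_goals
    rw [h] at h1 h2 ⊢
    simp only [Z, U1, U2, X1, X2, XX, L1, L2, M1, M2, Pi.add_apply] at h1 h2 ⊢
    grind

theorem R_smul {u v : E} (c : ℚ) (h1 : R u v) : R u (c • v) := by
  rcases polar u with h | h | h | h | h | ⟨m, h⟩ | ⟨m, h⟩ | ⟨m, h⟩ | ⟨m, h⟩ | h | h | h
  · exact h _
  all_goals
    rw [h] at h1 ⊢
    simp only [Z, U1, U2, X1, X2, XX, L1, L2, M1, M2, Pi.smul_apply, smul_eq_mul] at h1 ⊢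
    grind

theorem R_zero (u : E) : R u 0 := Or.inr (Or.inl (by simp [Z]))

def pol (u : E) : Submodule ℚ E where
  carrier := {v | R u v}
  add_mem' := R_add
  zero_mem' := R_zero u
  smul_mem' c _ := R_smul c

theorem R_x1 {v : E} (h : R v (Pi.single 4 1)) : U1 v := by
  simp [R, R0, Z, U1, U2, X1, X2, XX, L1, L2, M1, M2] at h ⊢
  grind
theorem R_x2 {v : E} (h : R v (Pi.single 7 1)) : U2 v := by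
  simp [R, R0, Z, U1, U2, X1, X2, XX, L1, L2, M1, M2] at h ⊢
  grind
theorem R_ab {u v : E} (h : R u v) (h1 : U1 u) (h2 : U2 u) (h3 : U1 v) (h4 : U2 v) :
    u 0 * v 1 = 0 := by
  rcases h with (h | h | h | h | ⟨l, m, h⟩ | ⟨l, m, h⟩) | (h | h | h | h | ⟨l, m, h⟩ | ⟨l, m, h⟩) <;>
  grind [Z, U1, U2, X1, X2, XX, L1, L2, M1, M2, → Pr_ne]

end Pool.Agent.H.MP_16c542_al
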